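import Mathlib
import Pool.Agent.H.MP_293d80_gt.A

set_option autoImplicit false

namespace Pool.Agent.Results.MP_293d80_gt.CH

open Set Cardinal Pool.Agent.H.MP_9c4169_gt Pool.Agent.H.MP_ef395a_gt Pool.Agent.H.MP_293d80_gt

theorem result (ch : continuum = (aleph 1 : Cardinal.{0})) : ∃ X Y : Set ℝ,
    Split (La (Op X)) (La (Op X)) ∧ Split (La (Op Y)) (La (Op Y)) ∧
      ¬ Split (La (Op ↥(X ∪ Y))) (La (Op ↥(X ∪ Y))) :=
  H.MP_293d80_gt.key ch

end Pool.Agent.Results.MP_293d80_gt.CH
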